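import Pool.Agent.H66.TjDefs
import Pool.Agent.H57.Wei
import Pool.Agent.H37.NF

/-! The totalizing jump distributes over the meet only for comparable problems. -/

namespace Pool.Agent.Results.MP_1d3aa8_lc.No

open Pool.Agent.H57.Wei Pool.Agent.H66.Tj Filter
open Pool.Agent.H37 (CI U exists_U mem_app' U_mon)

theorem pair_inj {x y x' y' : Baire} (h : pair x y = pair x' y') : x = x' ∧ y = y' :=
  ⟨funext fun n => (Nat.pair_eq_pair.1 (congrFun h n)).1,
    funext fun n => (Nat.pair_eq_pair.1 (congrFun h n)).2⟩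

/-- the constant functional -/
def constF (c : ℕ) : Functional :=
  ⟨fun s => s.map fun _ => c, (Primrec.list_map Primrec.id (Primrec.const c).to₂).to_comp,
    fun _ _ h => h.map _⟩

theorem eval_const (c : ℕ) (x : Baire) : (constF c).Eval x fun _ => c := fun n =>
  ⟨n, by simp [constF, pre, Function.comp_def]⟩

theorem head_mono {s t : List ℕ} (h : s <+: t) (hs : s ≠ []) : t.head? = s.head? := by
  obtain ⟨u, rfl⟩ := h
  cases s with
  | nil => exact absurd rfl hs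
  | cons a s => rfl

/-- definition by cases on the first digit of `T x` -/
def iteF (T : Functional) (k : ℕ) (F G : Functional) : Functional where
  toFun s := if T.toFun s = [] then [] else if (T.toFun s).head? = some k then F.toFun s
    else G.toFun s
  comp := by
    have h1 : Computable fun s => decide (T.toFun s = []) :=
      (Primrec.eq.decide.comp Primrec.id (Primrec.const [])).to_comp.comp T.comp
    have h2 : Computable fun s => decide ((T.toFun s).head? = some k) :=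
      (Primrec.eq.decide.comp Primrec.list_head? (Primrec.const (some k))).to_comp.comp T.comp
    refine (Computable.cond h1 (Computable.const []) (Computable.cond h2 F.comp G.comp)).of_eq
      fun s => ?_
    simp only [Bool.cond_decide]
  mono s t h := by
    by_cases hs : T.toFun s = []
    · simp [hs]
    have h1 := T.mono s t h
    have ht : T.toFun t ≠ [] := fun e => hs (by simpa [e] using h1)
    rw [if_neg hs, if_neg ht, head_mono h1 hs]
    split_ifs
    exacts [F.mono s t h, G.mono s t h]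

theorem eval_ite {T F G : Functional} {k : ℕ} {x t y : Baire} (ht : T.Eval x t)
    (h1 : t 0 = k → F.Eval x y) (h2 : t 0 ≠ k → G.Eval x y) : (iteF T k F G).Eval x y := by
  obtain ⟨j, hj⟩ := ht 1
  have key : ∀ l, j ≤ l → T.toFun (pre x l) ≠ [] ∧ (T.toFun (pre x l)).head? = some (t 0) := by
    intro l hl
    have := hj.trans (T.mono _ _ (pre_mono x hl))
    exact ⟨fun e => by rw [e] at this; simp [pre] at this,
      (head_mono this (by simp [pre])).trans (by simp [pre])⟩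
  intro n
  by_cases hk : t 0 = k
  · obtain ⟨l, hl⟩ := h1 hk n
    obtain ⟨a, b⟩ := key (max j l) (le_max_left _ _)
    refine ⟨max j l, ?_⟩
    simp only [iteF, if_neg a, b, hk, if_true]
    exact hl.trans (F.mono _ _ (pre_mono x (le_max_right _ _)))
  · obtain ⟨l, hl⟩ := h2 hk n
    obtain ⟨a, b⟩ := key (max j l) (le_max_left _ _)
    refine ⟨max j l, ?_⟩
    simp only [iteF, if_neg a, b, Option.some.injEq, if_neg hk]
    exact hl.trans (G.mono _ _ (pre_mono x (le_max_right _ _)))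

theorem wtrans {f g h : Problem} (h1 : WLe f g) (h2 : WLe g h) : WLe f h := by
  obtain ⟨F, G, h1⟩ := h1
  obtain ⟨F', G', h2⟩ := h2
  refine ⟨compF F' F, compF G (pairF fstF (compF G' (pairF (compF F fstF) sndF))), fun x hf => ?_⟩
  obtain ⟨u, k1, k2, k3⟩ := h1 x hf
  obtain ⟨v, h4, h5, h6⟩ := h2 u k2
  refine ⟨v, eval_comp k1 h4, h5, fun y hy => ?_⟩
  obtain ⟨z, h7, h8⟩ := h6 y hy
  obtain ⟨t, h9, h10⟩ := k3 z h8
  exact ⟨t, eval_comp (eval_pair (eval_fst x y) (eval_comp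
    (eval_pair (eval_comp (eval_fst x y) k1) (eval_snd x y)) h7)) h9, h10⟩

theorem wrefl (f : Problem) : WLe f f :=
  ⟨idF, sndF, fun x h => ⟨x, eval_id x, h, fun y hy => ⟨y, eval_snd _ _, hy⟩⟩⟩

theorem meet_mono {f g f' g' : Problem} (h1 : WLe f f') (h2 : WLe g g') :
    WLe (meet f g) (meet f' g') := by
  obtain ⟨F, G, h1⟩ := h1
  obtain ⟨F', G', h2⟩ := h2
  refine ⟨pairF (compF F fstF) (compF F' sndF), iteF (compF fstF sndF) 0
    (pairF (constF 0) (compF G (pairF (compF fstF fstF) (compF sndF sndF))))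
    (pairF (constF 1) (compF G' (pairF (compF sndF fstF) (compF sndF sndF)))), ?_⟩
  rintro _ ⟨-, x, z, rfl, hx, hz, -⟩
  obtain ⟨u, a1, a2, a3⟩ := h1 x hx
  obtain ⟨v, b1, b2, b3⟩ := h2 z hz
  refine ⟨pair u v, eval_pair (eval_comp (eval_fst _ _) a1) (eval_comp (eval_snd _ _) b1),
    a2.elim fun y hy => ⟨_, u, v, rfl, a2, b2, Or.inl ⟨y, hy, rfl⟩⟩, ?_⟩
  rintro _ ⟨u', v', e, -, -, ⟨y, hy, rfl⟩ | ⟨y, hy, rfl⟩⟩ <;> obtain ⟨rfl, rfl⟩ := pair_inj e
  · obtain ⟨t, t1, t2⟩ := a3 y hy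
    exact ⟨_, eval_ite (eval_comp (eval_snd _ _) (eval_fst _ _)) (fun _ => eval_pair
      (eval_const _ _) (eval_comp (eval_pair (eval_comp (eval_fst _ _) (eval_fst _ _))
      (eval_comp (eval_snd _ _) (eval_snd _ _))) t1)) (fun h => (h rfl).elim),
      x, z, rfl, hx, hz, Or.inl ⟨t, t2, rfl⟩⟩
  · obtain ⟨t, t1, t2⟩ := b3 y hy
    exact ⟨_, eval_ite (eval_comp (eval_snd _ _) (eval_fst _ _)) (fun h => (one_ne_zero h).elim)
      (fun _ => eval_pair (eval_const _ _) (eval_comp (eval_pair (eval_comp (eval_fst _ _)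
      (eval_snd _ _)) (eval_comp (eval_snd _ _) (eval_snd _ _))) t1)),
      x, z, rfl, hx, hz, Or.inr ⟨t, t2, rfl⟩⟩

theorem meet_le (f g : Problem) : WLe (meet f g) f ∧ WLe (meet f g) g := by
  refine ⟨⟨fstF, pairF (constF 0) sndF, ?_⟩, sndF, pairF (constF 1) sndF, ?_⟩ <;>
    rintro _ ⟨-, x, z, rfl, hx, hz, -⟩
  · exact ⟨x, eval_fst _ _, hx, fun y hy => ⟨_, eval_pair (eval_const _ _) (eval_snd _ _),
      x, z, rfl, hx, hz, Or.inl ⟨y, hy, rfl⟩⟩⟩
  · exact ⟨z, eval_snd _ _, hz, fun y hy => ⟨_, eval_pair (eval_const _ _) (eval_snd _ _),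
      x, z, rfl, hx, hz, Or.inr ⟨y, hy, rfl⟩⟩⟩

def cons (c : ℕ) (x : Baire) : Baire := fun i => Nat.casesOn i c x

def tl (x : Baire) : Baire := fun i => x (i + 1)

theorem pre_succ (x : Baire) (n : ℕ) : pre x (n + 1) = x 0 :: pre (tl x) n := by
  simp [pre, List.range_succ_eq_map, tl, Function.comp_def]

def consF (c : ℕ) : Functional :=
  ⟨fun s => c :: s, CI.computable (by fun_prop), fun _ _ h => by simpa using h⟩

theorem eval_cons (c : ℕ) (x : Baire) : (consF c).Eval x (cons c x) := fun n =>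
  ⟨n, (pre_mono _ n.le_succ).trans (by rw [pre_succ]; rfl)⟩

def tlF : Functional := ⟨List.tail, CI.computable (by fun_prop), by
  rintro (_ | ⟨a, s⟩) _ ⟨t, rfl⟩ <;> simp⟩

theorem eval_tl (x : Baire) : tlF.Eval x (tl x) := fun n => ⟨n + 1, by rw [pre_succ]; rfl⟩

def incF : Functional := ⟨fun s => (s.head?.map (· + 1)).toList ++ s.tail,
  CI.computable (by fun_prop), by rintro (_ | ⟨a, s⟩) _ ⟨t, rfl⟩ <;> simp⟩

theorem eval_inc (x : Baire) : incF.Eval x (cons (x 0 + 1) (tl x)) := fun n =>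
  ⟨n + 1, (pre_mono _ n.le_succ).trans (by rw [pre_succ, pre_succ]; rfl)⟩

def Hd (q : Baire) (n e : ℕ) : Prop := (∀ i < n, q i = 0) ∧ q n = e + 1

theorem delay (n : ℕ) : ∃ G : Functional, ∀ e, ∃ (F : Functional) (d : Baire → Baire),
    ∀ x, F.Eval x (d x) ∧ G.Eval (d x) x ∧ Hd (d x) n e := by
  induction n with
  | zero => exact ⟨tlF, fun e => ⟨_, _, fun x => ⟨eval_cons (e + 1) x, eval_tl _, by simp, rfl⟩⟩⟩
  | succ n ih =>
    obtain ⟨G, h⟩ := ih
    refine ⟨compF G tlF, fun e => ?_⟩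
    obtain ⟨F, d, h⟩ := h e
    refine ⟨_, _, fun x => ⟨eval_comp (h x).1 (eval_cons 0 _), eval_comp (eval_tl _) (h x).2.1,
      ?_, (h x).2.2.2⟩⟩
    rintro (_ | i) hi
    exacts [rfl, (h x).2.2.1 i (by omega)]

def tk (l : List (Option ℕ)) : List ℕ := l.foldr (fun o r => o.elim [] (· :: r)) []

theorem tk_mono : ∀ l l' : List (Option ℕ), (∀ (i : ℕ) v, l[i]? = some (some v) →
    l'[i]? = some (some v)) → tk l <+: tk l'
  | [], _, _ => List.nil_prefix
  | none :: _, _, _ => List.nil_prefix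
  | some v :: _, [], h => by simpa using h 0 v
  | some v :: l, o :: l', h => by
    obtain rfl : o = some v := by simpa using h 0 v
    exact List.cons_prefix_cons.2 ⟨rfl, tk_mono l l' fun i => h (i + 1)⟩

theorem tk_some (l : List ℕ) : tk (l.map some) = l := by
  induction l with
  | nil => rfl
  | cons a l ih => exact congrArg (a :: ·) ih

/-- universal functionals -/
def V (b : Bool) : Functional where
  toFun s := ((s.map fun a => a.unpair.1).find? fun a => decide (0 < a)).elim [] fun c =>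
    tk ((List.range s.length).map fun n => U (cond b (c - 1).unpair.1 (c - 1).unpair.2)
      (s.map fun a => a.unpair.2) n)
  comp := CI.computable (by unfold tk; fun_prop)
  mono := by
    rintro s _ ⟨t, rfl⟩
    cases h : (s.map fun a => a.unpair.1).find? fun a => decide (0 < a) with
    | none => exact List.nil_prefix
    | some c =>
      simp only [List.map_append, List.find?_append, h, Option.some_or, Option.elim]
      refine tk_mono _ _ fun i v hi => ?_
      simp only [List.getElem?_map, Option.map_eq_some_iff, List.getElem?_eq_some_iff,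
        List.length_range, List.getElem_range] at hi ⊢
      obtain ⟨_, ⟨h1, rfl⟩, h2⟩ := hi
      exact ⟨i, ⟨by simp; omega, rfl⟩, U_mon _ _ _ _ _ (List.prefix_append _ _) h2⟩

theorem univ (F : Bool → Functional) : ∃ e, ∀ b q n x y, Hd q n e → (F b).Eval x y →
    (V b).Eval (pair q x) y := by
  choose e _ he using fun b => exists_U (Φ := fun σ n => ((F b).toFun σ)[n]?)
    (CI.getElem? ((CI.of_comp (F b).comp).comp (by fun_prop)) (by fun_prop)) fun σ τ n v h k => by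
      obtain ⟨t, ht⟩ := (F b).mono _ _ h
      beta_reduce at k ⊢
      rw [← ht, List.getElem?_append_left (List.getElem?_eq_some_iff.1 k).1, k]
  refine ⟨Nat.pair (e true) (e false), fun b q n x y hq h N => ?_⟩
  have : ∀ᶠ k in atTop, ∀ i ∈ Finset.range N, U (e b) (pre x k) i = some (y i) :=
    (eventually_all_finset _).2 fun i _ => mem_app'.1 ((he b x i _).2 ((h (i + 1)).imp
      fun k ⟨t, ht⟩ => by
        change ((F b).toFun (pre x k))[i]? = _
        rw [← ht, List.getElem?_append_left (by simp [pre])]; simp [pre]))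
  obtain ⟨k, k1, k2, k3⟩ := (this.and ((eventually_ge_atTop N).and (eventually_gt_atTop n))).exists
  refine ⟨k, ?_⟩
  have e1 : ((pre (pair q x) k).map fun a => a.unpair.1).find? (fun a => decide (0 < a)) =
      some (q n) := by
    rw [List.find?_eq_some_iff_getElem]
    refine ⟨by simp [hq.2], n, by simpa [pre] using k3, by simp [pre, pair], fun j hj => ?_⟩
    simp [pre, pair, hq.1 j hj]
  have e2 : ((pre (pair q x) k).map fun a => a.unpair.2) = pre x k := by
    simp [pre, pair, Function.comp_def]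
  simp only [V, e1, e2, hq.2, Option.elim, Nat.add_sub_cancel, Nat.unpair_pair, pre_length]
  rw [← tk_some (pre y N), show cond b (e true) (e false) = e b by cases b <;> rfl]
  refine tk_mono _ _ fun i v hi => ?_
  simp only [pre, List.map_map, List.getElem?_map, Option.map_eq_some_iff, List.getElem?_eq_some_iff,
    List.length_range, List.getElem_range, Function.comp, Option.some.injEq] at hi ⊢
  obtain ⟨_, ⟨h1, rfl⟩, rfl⟩ := hi
  exact ⟨i, ⟨by omega, rfl⟩, k1 i (Finset.mem_range.2 h1)⟩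

/-- the universal problem equivalent to `f` -/
def u (f : Problem) : Problem := fun q => {y | ∃ z, (V false).Eval (pair q q) z ∧
  (∀ w ∈ f z, ∃ v, (V true).Eval (pair q (pair q w)) v) ∧
  ∃ w ∈ f z, (V true).Eval (pair q (pair q w)) y}

theorem u_spec (F G : Functional) : ∃ e, ∀ (f : Problem) q n z, Hd q n e → F.Eval q z →
    (∀ w ∈ f z, ∃ v, G.Eval (pair q w) v) → ∀ y, y ∈ u f q ↔ ∃ w ∈ f z, G.Eval (pair q w) y := by
  obtain ⟨e, he⟩ := univ fun b => cond b G F
  refine ⟨e, fun f q n z h1 h2 h3 y => ⟨?_, fun ⟨w, h4, h5⟩ => ⟨z, he false _ _ _ _ h1 h2,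
    fun w hw => (h3 w hw).imp fun v => he true _ _ _ _ h1, w, h4, he true _ _ _ _ h1 h5⟩⟩⟩
  rintro ⟨z', k1, -, w, k2, k3⟩
  obtain rfl := k1.unique (he false _ _ _ _ h1 h2)
  obtain ⟨v, hv⟩ := h3 w k2
  exact ⟨w, k2, k3.unique (he true _ _ _ _ h1 hv) ▸ hv⟩

theorem u_le (f : Problem) : WLe (u f) f := by
  refine ⟨compF (V false) (pairF idF idF), compF (V true) (pairF fstF idF), ?_⟩
  rintro q ⟨-, z, h1, h2, w, h3, -⟩
  refine ⟨z, eval_comp (eval_pair (eval_id _) (eval_id _)) h1, ⟨w, h3⟩, fun w hw => ?_⟩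
  obtain ⟨v, hv⟩ := h2 w hw
  exact ⟨v, eval_comp (eval_pair (eval_fst _ _) (eval_id _)) hv, z, h1, h2, w, hw, hv⟩

theorem le_u {g f : Problem} (h : WLe g f) : ∃ (F : Functional) (d : Baire → Baire), ∀ x,
    F.Eval x (d x) ∧ ((g x).Nonempty → (u f (d x)).Nonempty ∧ u f (d x) ⊆ g x) := by
  obtain ⟨A, B, h⟩ := h
  obtain ⟨G, hG⟩ := delay 0
  obtain ⟨e, he⟩ := u_spec (compF A G) (compF B (pairF (compF G fstF) sndF))
  obtain ⟨F, d, hd⟩ := hG e
  refine ⟨F, d, fun x => ⟨(hd x).1, fun hx => ?_⟩⟩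
  obtain ⟨z, z1, ⟨w, hw⟩, z3⟩ := h x hx
  have k : ∀ w ∈ f z, ∃ v, (compF B (pairF (compF G fstF) sndF)).Eval (pair (d x) w) v ∧ v ∈ g x :=
    fun w hw => (z3 w hw).imp fun v hv => ⟨eval_comp (eval_pair (eval_comp (eval_fst _ _)
      (hd x).2.1) (eval_snd _ _)) hv.1, hv.2⟩
  have := he f _ _ z (hd x).2.2 (eval_comp (hd x).2.1 z1) fun w hw => (k w hw).imp fun _ h => h.1
  refine ⟨(k w hw).imp fun v hv => (this v).2 ⟨w, hw, hv.1⟩, fun y hy => ?_⟩
  obtain ⟨w, h1, h2⟩ := (this y).1 hy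
  obtain ⟨v, h3, h4⟩ := k w h1
  exact h3.unique h2 ▸ h4

theorem u_eq (f : Problem) : WEq (u f) f := by
  obtain ⟨F, d, h⟩ := le_u (wrefl f)
  exact ⟨u_le f, F, sndF, fun x hx => ⟨_, (h x).1, ((h x).2 hx).1, fun y hy =>
    ⟨y, eval_snd _ _, ((h x).2 hx).2 hy⟩⟩⟩

theorem tot_ne (f : Problem) (p : Baire) : (Tot f p).Nonempty := by
  by_cases h : (f p).Nonempty
  exacts [h.imp fun _ h _ => h, ⟨p, fun k => (h k).elim⟩]

theorem core {f g k : Problem} {A B : Functional} {c c' : ℕ} (hc : c ≠ c')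
    (H : ∀ p q, ∃ r, A.Eval (pair p q) r ∧ ∀ s ∈ Tot k r, ∃ t, B.Eval (pair (pair p q) s) t ∧
      ((∃ y ∈ Tot (u f) p, t = pair (fun _ => c) y) ∨ ∃ y ∈ Tot (u g) q, t = pair (fun _ => c') y))
    (hk : WLe k g) {s0 y0 : Baire}
    (h0 : B.Eval (pair (pair (fun _ => 0) fun _ => 0) s0) (pair (fun _ => c) y0)) : WLe f g := by
  obtain ⟨n, h0⟩ := h0 1
  obtain ⟨d, hd⟩ : ∃ d, y0 0 = d := ⟨_, rfl⟩
  obtain ⟨K, L, hk⟩ := hk
  obtain ⟨G, hG⟩ := delay n
  obtain ⟨e, he⟩ := u_spec G (compF (consF (d + 1)) sndF)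
  obtain ⟨P, p, hp⟩ := hG e
  let R := compF A (pairF (compF P G) idF)
  let S := compF incF (compF sndF (compF B (pairF (pairF (compF (compF P G) fstF) fstF)
    (compF L (pairF (compF R fstF) sndF)))))
  obtain ⟨e', he'⟩ := u_spec (compF K R) S
  obtain ⟨Q, q, hq⟩ := hG e'
  refine ⟨compF (compF K R) Q, compF tlF (compF S (pairF (compF Q fstF) sndF)), fun x hx => ?_⟩
  have p1 := he f _ _ x (hp x).2.2 (hp x).2.1 fun w _ => ⟨_, eval_comp (eval_snd _ _) (eval_cons _ _)⟩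
  have p2 : ∀ y ∈ Tot (u f) (p x), y 0 = d + 1 ∧ tl y ∈ f x := fun y hy => by
    obtain ⟨w, h1, h2⟩ := (p1 y).1 (hy (hx.elim fun w hw =>
      ⟨_, (p1 _).2 ⟨w, hw, eval_comp (eval_snd _ _) (eval_cons _ _)⟩⟩))
    rw [h2.unique (eval_comp (eval_snd _ _) (eval_cons _ _))]
    exact ⟨rfl, h1⟩
  obtain ⟨r, r1, r2⟩ := H (p x) (q x)
  have r3 : (k r).Nonempty := by
    by_contra hn
    obtain ⟨t, t1, t2⟩ := r2 s0 fun h => (hn h).elim
    obtain ⟨j, hj⟩ := t1 1
    have : pre (pair (pair (fun _ => 0) fun _ => 0) s0) n = pre (pair (pair (p x) (q x)) s0) n :=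
      List.map_congr_left fun i hi => by
        simp [pair, (hp x).2.2.1 i (List.mem_range.1 hi), (hq x).2.2.1 i (List.mem_range.1 hi)]
    rw [this] at h0
    have := (List.prefix_of_prefix_length_le (hj.trans (B.mono _ _ (pre_mono _ (le_max_left j n))))
      (h0.trans (B.mono _ _ (pre_mono _ (le_max_right j n)))) (by simp [pre])).eq_of_length
      (by simp [pre])
    rcases t2 with ⟨y, y1, rfl⟩ | ⟨y, -, rfl⟩
    · simp [pre, pair, (p2 y y1).1, hd] at this
    · simp [pre, pair, hc.symm] at this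
  obtain ⟨z, z1, z2, z3⟩ := hk r r3
  have e0 := eval_comp (hq x).2.1 (hp x).1
  have e1 : R.Eval (q x) r := eval_comp (eval_pair e0 (eval_id _)) r1
  have key : ∀ w ∈ g z, ∃ y, S.Eval (pair (q x) w) (cons (y 0 + 1) (tl y)) ∧
      (y ∈ Tot (u f) (p x) ∨ y ∈ Tot (u g) (q x)) := fun w hw => by
    obtain ⟨s, s1, s2⟩ := z3 w hw
    obtain ⟨t, t1, t2⟩ := r2 s fun _ => s2
    have := eval_comp (eval_pair (eval_pair (eval_comp (eval_fst _ w) e0) (eval_fst _ _))
      (eval_comp (eval_pair (eval_comp (eval_fst _ _) e1) (eval_snd _ _)) s1)) t1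
    rcases t2 with ⟨y, y1, rfl⟩ | ⟨y, y1, rfl⟩
    exacts [⟨y, eval_comp (eval_comp this (eval_snd _ _)) (eval_inc y), Or.inl y1⟩,
      ⟨y, eval_comp (eval_comp this (eval_snd _ _)) (eval_inc y), Or.inr y1⟩]
  have q1 := he' g _ _ z (hq x).2.2 (eval_comp e1 z1) fun w hw => (key w hw).elim fun _ h => ⟨_, h.1⟩
  have q2 : ∀ m, ∀ v ∈ u g (q x), v 0 = m → tl v ∈ f x := fun m => by
    induction m using Nat.strong_induction_on with
    | _ m ih =>
      rintro v hv rfl
      obtain ⟨w, h1, h2⟩ := (q1 v).1 hv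
      obtain ⟨y, y1, y2⟩ := key w h1
      obtain rfl := h2.unique y1
      exact y2.elim (fun h => (p2 y h).2) fun h => ih _ (Nat.lt_succ_self _) y (h ⟨_, hv⟩) rfl
  refine ⟨z, eval_comp (hq x).1 (eval_comp e1 z1), z2, fun w hw => ?_⟩
  obtain ⟨y, y1, -⟩ := key w hw
  exact ⟨_, eval_comp (eval_comp (eval_pair (eval_comp (eval_fst _ _) (hq x).1) (eval_snd _ _)) y1)
    (eval_tl _), q2 _ _ ((q1 _).2 ⟨w, hw, y1⟩) rfl⟩

theorem result : (∀ f, ∃ J, IsTJ f J) ∧ ∀ f g Jf Jg Jm, IsTJ f Jf → IsTJ g Jg →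
    IsTJ (meet f g) Jm → WLe (meet Jf Jg) Jm → WLe f g ∨ WLe g f := by
  constructor
  · refine fun f => ⟨Tot (u f), ⟨_, u_eq f, wrefl _, wrefl _⟩, fun g hg => ?_⟩
    obtain ⟨F, d, h⟩ := le_u hg.1
    exact ⟨F, sndF, fun x _ => ⟨_, (h x).1, tot_ne _ _, fun y hy => ⟨y, eval_snd _ _, fun hx =>
      ((h x).2 hx).2 (hy ((h x).2 hx).1)⟩⟩⟩
  rintro f g Jf Jg Jm h1 h2 ⟨⟨k, k1, k2⟩, -⟩ h
  obtain ⟨A, B, H⟩ := wtrans (meet_mono (h1.2 _ (u_eq f)) (h2.2 _ (u_eq g))) (wtrans h k2.1)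
  have H : ∀ p q, ∃ r, A.Eval (pair p q) r ∧ ∀ s ∈ Tot k r, ∃ t, B.Eval (pair (pair p q) s) t ∧
      ((∃ y ∈ Tot (u f) p, t = pair (fun _ => 0) y) ∨
      ∃ y ∈ Tot (u g) q, t = pair (fun _ => 1) y) := fun p q => by
    obtain ⟨r, r1, -, r2⟩ := H (pair p q) ((tot_ne _ p).elim fun y hy =>
      ⟨_, p, q, rfl, tot_ne _ _, tot_ne _ _, Or.inl ⟨y, hy, rfl⟩⟩)
    refine ⟨r, r1, fun s hs => ?_⟩
    obtain ⟨t, t1, p', q', e, -, -, t2⟩ := r2 s hs
    obtain ⟨rfl, rfl⟩ := pair_inj e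
    exact ⟨t, t1, t2⟩
  obtain ⟨r, -, r2⟩ := H (fun _ => 0) fun _ => 0
  obtain ⟨s, hs⟩ := tot_ne k r
  have sw : ∀ p q, (pairF sndF fstF).Eval (pair p q) (pair q p) := fun p q =>
    eval_pair (eval_snd _ _) (eval_fst _ _)
  have sw2 := fun p q s => eval_pair (eval_comp (eval_fst (pair p q) s) (sw p q)) (eval_snd _ _)
  obtain ⟨_, t1, ⟨y, -, rfl⟩ | ⟨y, -, rfl⟩⟩ := r2 s hs
  · exact Or.inl (core zero_ne_one H (wtrans k1.1 (meet_le f g).2) t1)
  · refine Or.inr (core one_ne_zero (fun q p => ?_) (wtrans k1.1 (meet_le f g).1)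
      (eval_comp (sw2 _ _ _) t1) (A := compF A (pairF sndF fstF)))
    obtain ⟨r, r1, r2⟩ := H p q
    exact ⟨r, eval_comp (sw q p) r1, fun s hs => (r2 s hs).imp fun t h =>
      ⟨eval_comp (sw2 _ _ _) h.1, h.2.symm⟩⟩

end Pool.Agent.Results.MP_1d3aa8_lc.No
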